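import Pool.Agent.Helper45.CF.GoalsC
import Pool.Agent.Helper44.CAR.UNT

/-!
Packet CF2-BIG (helper45, project CF stage 2): `S_BIG`, the rotated step over the big algebra is
almost scalar.
-/

open scoped ComplexOrder ZeroAtInfty Topology ComplexConjugate NNReal
open TopologicalSpace Filter

namespace Pool.Agent.Helper28.CF2

open Pool.Agent.Helper34.CAR Pool.Agent.Helper39.CR Pool.Agent.Helper39.Uct
  Pool.Agent.Helper45.CF

noncomputable section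

/-- the scalar representation of the stage. -/
def rho28 {B' : Type} [CStarAlgebra B'] (ω : B' →⋆ₐ[ℂ] ℂ) {J : Type} [Fintype J] [DecidableEq J]
    (s : B' →⋆ₐ[ℂ] Mt J ℂ) : B' →⋆ₐ[ℂ] Mt ((Fin 2 ⊕ Unit) ⊕ J) ℂ :=
  osum ((algC (Mt (Fin 2 ⊕ Unit) ℂ)).comp ω) s

theorem bd_scl28 {B' : Type} [CStarAlgebra B'] (ω : B' →⋆ₐ[ℂ] ℂ) {J : Type} [Fintype J]
    [DecidableEq J] (s : B' →⋆ₐ[ℂ] Mt J ℂ) (b : B') :
    bd (algebraMap ℂ (Mt (Fin 2 ⊕ Unit) B') (ω b)) (scl B' s b) = scl B' (rho28 ω s) b := by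
  ext p q
  rcases p with p | p <;> rcases q with q | q
  · show algebraMap ℂ (Mt (Fin 2 ⊕ Unit) B') (ω b) p q =
      algebraMap ℂ B' (algebraMap ℂ (Mt (Fin 2 ⊕ Unit) ℂ) (ω b) p q)
    rw [Mt.algebraMap_apply, Mt.algebraMap_apply]
    split_ifs
    · rfl
    · rw [map_zero]
  · show (0 : B') = algebraMap ℂ B' (0 : ℂ)
    rw [map_zero]
  · show (0 : B') = algebraMap ℂ B' (0 : ℂ)
    rw [map_zero]
  · rfl

theorem t (hPNT : S_PNT) (hUCH : S_UCH) (hRRH : S_RRH) (hABF : S_ABF) :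
    Pool.Agent.Helper45.CF.S_BIG := by
  intro E _ hE F ε hε
  have hNU : NU (StarAlgHom.id ℂ (Unitization ℂ (Two E))) := by
    intro F δ hδ
    obtain ⟨J, i1, i2, σ, v, h1, h2⟩ := Pool.Agent.Helper44.CAR.unt (Two E) (hPNT E hE) F δ hδ
    exact ⟨J, i1, i2, σ, v, h1, h2⟩
  obtain ⟨m, h, h0, hm, hstep⟩ := hUCH E F (ε / 2) (half_pos hε)
  obtain ⟨R, hR⟩ := (hRRH (Unitization ℂ (Two E)) (prE E).θ' (prE E).ω').1
  obtain ⟨J, i1, i2, s, w, hw1, hw2, hb⟩ := hABF (Unitization ℂ (Two E)) (Unitization ℂ (Two E))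
    (Unitization ℂ (Two E)) Sphere2 (Fin 2 ⊕ Unit) (StarAlgHom.id ℂ (Unitization ℂ (Two E))) hNU
    m (fun j => R.comp (h j)) F ε hε (by
      intro b hbF j hj
      show ‖R (h j b) - R (h (j + 1) b)‖ ≤ ε / 2
      rw [← map_sub]
      exact (NonUnitalStarAlgHom.norm_apply_le R _).trans (hstep b hbF j hj))
  refine ⟨J, i1, i2, s, w, rho28 (prE E).ω' s, hw1, hw2, ?_⟩
  intro b hbF y
  have h3 := hb b hbF y
  have h4 : R (h 0 b) y = rr (prE E).θ' (prE E).ω' y b := by rw [h0, hR]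
  have h5 : R (h m b) y =
      algebraMap ℂ (Mt (Fin 2 ⊕ Unit) (Unitization ℂ (Two E))) ((prE E).ω' b) := by
    rw [hm, AlgHomClass.commutes]
    rfl
  have h6 : scl (Unitization ℂ (Two E)) (s.comp (StarAlgHom.id ℂ (Unitization ℂ (Two E)))) b =
      scl (Unitization ℂ (Two E)) s b := rfl
  have h7 : ‖bd (R (h 0 b) y) (scl (Unitization ℂ (Two E)) (s.comp (StarAlgHom.id ℂ (Unitization ℂ (Two E)))) b) -
      star (w y) * bd (R (h m b) y) (scl (Unitization ℂ (Two E)) (s.comp (StarAlgHom.id ℂ (Unitization ℂ (Two E)))) b) *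
        w y‖ < ε := h3
  rw [h4, h5, h6, bd_scl28, ← rotM_eq] at h7
  exact h7

end

end Pool.Agent.Helper28.CF2
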